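import Mathlib
import Pool.Agent.H16.Br

set_option autoImplicit false

namespace Pool.Agent.Results.MP_4402c4_co.No

open Pool.Agent.H16.Br Filter

theorem result :
    (∃ x : ℕ → Fin 3, Recurrent x ∧ {w | Factor x w ∧ w.reverse = w}.Infinite ∧ ¬ ClosedRev x ∧
      (∀ K : ℤ, ∃ᶠ N in atTop, ∑ n ∈ Finset.range N, T x n < K) ∧ ¬ BrlekReutenauer x) ∧
    ¬ ∀ (A : Type) [Finite A] (x : ℕ → A), Recurrent x →
      {w | Factor x w ∧ w.reverse = w}.Infinite → ¬ ClosedRev x → BrlekReutenauer x :=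
  ⟨⟨u, recur, pal_inf, not_closed, unb, not_br⟩,
    fun h => not_br (h (Fin 3) u recur pal_inf not_closed)⟩

end Pool.Agent.Results.MP_4402c4_co.No
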